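import Pool.Agent.MP_ecfd11_lc.H65D.Defs

/-!
Supercompactness in HOD by a measure whose members are cofinal in V.
-/

namespace Pool.Agent.MP_ecfd11_lc.H46S

universe u

open ZFSet H65D

/-- HOD satisfies: `U` is a `t`-complete fine normal ultrafilter on `P_t(n)`; and every member of
`U` is cofinal in the true `P_t(n)`. -/
def SupCov (t n : ZFSet.{u}) : Prop :=
  ∃ U : ZFSet.{u}, HOD Set.univ U ∧ (∀ Y ∈ U, Y ⊆ Pk t n) ∧ ∅ ∉ U ∧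
    (∀ Y ∈ U, ∀ Z, HOD Set.univ Z → Y ⊆ Z → Z ⊆ Pk t n → Z ∈ U) ∧
    (∀ Y, HOD Set.univ Y → Y ⊆ Pk t n → Y ∈ U ∨ Pk t n \ Y ∈ U) ∧
    (∀ F, HOD Set.univ F → F ⊆ U → card F < card t →
      (Pk t n).sep (fun x => ∀ Y ∈ F, x ∈ Y) ∈ U) ∧
    (∀ z ∈ n, (Pk t n).sep (fun x => z ∈ x) ∈ U) ∧
    (∀ f, HOD Set.univ f → IsFunc (Pk t n) n f →
      (Pk t n).sep (fun x => ∃ z ∈ x, pair x z ∈ f) ∈ U →
        ∃ z, (Pk t n).sep (fun x => pair x z ∈ f) ∈ U) ∧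
    ∀ Y ∈ U, ∀ x, x ⊆ n → card x < card t → ∃ y ∈ Y, x ⊆ y

end Pool.Agent.MP_ecfd11_lc.H46S
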