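import Pool.Agent.MP_ecfd11_lc.H46S.Reg

/-!
Saturation gives weak normality, and a definable system of small sets that is fine on a club.
-/

set_option synthInstance.maxSize 4000

namespace Pool.Agent.MP_ecfd11_lc.H46S

open Pool.Agent.MP_ecfd11_lc.H20 Pool.Agent.MP_ecfd11_lc.H13X Pool.Agent.MP_ecfd11_lc.H3U
  Pool.Agent.MP_ecfd11_lc.H3E Pool.Agent.MP_ecfd11_lc.H65S Pool.Agent.MP_ecfd11_lc.H65D

universe u

open ZFSet Cardinal Function Filter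

variable {d m t n r E x : ZFSet.{u}}

/-- Definable families of disjoint stationary sets of points of countable cofinality are small. -/
def Few' (t n : ZFSet.{u}) : Prop :=
  ∀ (P : ZFSet.{u}) (T : ZFSet.{u} → ZFSet.{u}), OD Set.univ P → P ⊆ n →
    Tm Set.univ On (fun v => T (v 0)) → (∀ z ∈ P, (∀ y ∈ T z, Cw y) ∧ ¬ Null n (T z)) →
    (∀ z ∈ P, ∀ z' ∈ P, ∀ y ∈ T z, y ∈ T z' → z = z') → card P < card t

theorem sat_small (e1 : Club n E) (e2 : card E < card t) : Few' t n := by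
  intro P T _ _ _ h1 h2
  have h3 : ∀ z ∈ P, ∃ y, y ∈ T z ∧ y ∈ E := fun z hz => by
    by_contra h
    push Not at h
    exact (h1 z hz).2 ⟨E, e1, h⟩
  choose! Y y1 y2 using h3
  exact (card_le_of_inj Y y2 fun z hz z' hz' e =>
    h2 z hz z' hz' _ (y1 z hz) (e ▸ y1 z' hz')).trans_lt e2

theorem sat_big (hu : Unc n) (hd : Regular Set.univ d) (hr : Refl d n) (hm : H57F.Gap d m)
    (hmt : card m < card t) : Few' t n := by
  intro P T p0 p1 t0 h2 h3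
  refine lt_of_le_of_lt ?_ hmt
  by_contra h0
  have : Tm Set.univ On (fun _ => n) := Tm.ofOrd hu.1
  have : Tm Set.univ On (fun _ => P) := od_iff.1 p0
  obtain ⟨k, k0, k1, k2⟩ := od_enum p0 fun z hz => od_iff.2 (Tm.ofOrd (hu.1.mem (p1 hz)))
  have := Tm.one (C := Set.univ) (A := On) k
  have := Tm.one (C := Set.univ) (A := On) T
  have h1 : m ⊆ img k P := by
    by_contra h1
    rw [← k1.notMem_iff_subset hm.1, not_not] at h1
    exact h0 ((card_le_of_inj k (fun z hz => mem_img.2 ⟨z, hz, rfl⟩) k2).trans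
      (card_mono (hm.1.subset_of_mem h1)))
  refine H57F.sat_bd hd hr hu hm (fun j => n.sep fun x => ∃ z ∈ P, k z = j ∧ x ∈ T z)
    inferInstance (fun j hj => ⟨fun y hy => ?_, fun h2' => ?_⟩) fun j _ j' _ y y1 y2 => ?_
  · obtain ⟨z, z0, -, z4⟩ := (mem_sep.1 hy).2
    obtain ⟨Y, z1, z2, z3⟩ := (h2 z z0).1 y z4
    refine ⟨Y, z1, fun h3 => z2 ?_, z3⟩
    rw [card_succCard]
    exact (Order.succ_le_of_lt (hd.card_lt hd.2.1)).trans h3
  · obtain ⟨z, z1, z2⟩ := mem_img.1 (h1 hj)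
    exact (h2 z z1).2 (h2'.mono fun x hx hx' => mem_sep.2 ⟨hx', z, z1, z2, hx⟩)
  · obtain ⟨-, z, z0, rfl, z1⟩ := mem_sep.1 y1
    obtain ⟨-, z', z0', rfl, z3⟩ := mem_sep.1 y2
    rw [h3 z z0 z' z0' y z1 z3]

theorem tm_W (hn : n.IsOrdinal) : Tm Set.univ On (fun _ => n.sep Cw) := by
  have : Tm Set.univ On (fun _ => n) := Tm.ofOrd hn
  have : Tm Set.univ On (fun _ => succCard om.{u}) := Tm.ofOrd (succCard_ord _)
  unfold Cw
  infer_instance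

theorem wn (hu : Unc n) (hr : Regular {x | HOD Set.univ x} n) (htn : t ⊆ n) (hs : Few' t n)
    (p : ZFSet.{u} → ZFSet.{u} → Prop) [Df Set.univ On (fun v => p (v 0) (v 1))]
    (mono : ∀ g g' y, g ⊆ g' → p g y → p g' y)
    (h : ∀ᶠ y in cf (n.sep Cw) hu, ∃ g ∈ y, p g y) :
    ∃ g ∈ n, ∀ᶠ y in cf (n.sep Cw) hu, p g y := by
  have : Tm Set.univ On (fun _ => n) := Tm.ofOrd hu.1
  have := tm_W hu.1
  have := Df.two (C := Set.univ) (A := On) p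
  obtain ⟨P, hP⟩ : ∃ P, P = n.sep fun g =>
      ∀ g', g' ∈ g → ¬ Null n ((n.sep Cw).sep fun y => p g y ∧ ¬ p g' y) := ⟨_, rfl⟩
  have p0 : Tm Set.univ On (fun _ => P) := by
    rw [hP]; infer_instance
  have p1 : ∀ g, g ∈ P ↔ g ∈ n ∧
      ∀ g', g' ∈ g → ¬ Null n ((n.sep Cw).sep fun y => p g y ∧ ¬ p g' y) := fun g => by
    rw [hP, mem_sep]
  have p2 : P ⊆ n := fun g hg => ((p1 g).1 hg).1
  obtain ⟨x, x1, x2⟩ : ∃ x ∈ n, ∀ z ∈ P, x ∉ z := by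
    by_contra h0
    push Not at h0
    refine (reg_small hr htn (od_iff.2 p0) p2 h0).not_gt (hs P
      (fun g => (n.sep Cw).sep fun y => ¬ p g y ∧ ∀ g', g' ∈ P → g ∈ g' → p g' y)
      (od_iff.2 p0) p2 inferInstance (fun g hg => ⟨fun y hy => (mem_sep.1 (mem_sep.1 hy).1).2,
        fun h1 => ?_⟩) fun g hg g' hg' y y1 y2 => ?_)
    · obtain ⟨z, z1, z2⟩ := h0 g (p2 hg)
      obtain ⟨c, ⟨c1, c2⟩, c3⟩ := exists_min_mem (p := fun c => c ∈ P ∧ g ∈ c) ⟨z1, z2⟩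
      refine ((p1 c).1 c1).2 g c2 (h1.mono fun y hy _ => mem_sep.2 ⟨(mem_sep.1 hy).1,
        (mem_sep.1 hy).2.2, fun g' g1 g2 => mono c g' y ?_ (mem_sep.1 hy).2.1⟩)
      exact ((hu.1.mem (p2 g1)).mem_or_subset (hu.1.mem (p2 c1))).resolve_left
        fun k => c3 g' k ⟨g1, g2⟩
    · obtain ⟨-, a1, a2⟩ := mem_sep.1 y1
      obtain ⟨-, b1, b2⟩ := mem_sep.1 y2
      rcases (hu.1.mem (p2 hg)).mem_trichotomous (hu.1.mem (p2 hg')) with k | k | k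
      exacts [absurd (a2 g' hg' k) b1, k, absurd (b2 g hg k) a1]
  have h1 : ∀ g ∈ n, ∀ᶠ y in cf (n.sep Cw) hu, p g y → p x y := fun g hg => by
    by_contra h0
    obtain ⟨c, ⟨c1, c2⟩, c3⟩ := exists_min_mem
      (p := fun c => c ∈ n ∧ ¬ ∀ᶠ y in cf (n.sep Cw) hu, p c y → p x y) ⟨hg, h0⟩
    by_cases k : c ∈ P
    · exact c2 (Eventually.of_forall fun y => mono c x y
        (((hu.1.mem x1).notMem_iff_subset (hu.1.mem c1)).1 (x2 c k)))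
    · rw [p1] at k
      push Not at k
      obtain ⟨g', g1, g2⟩ := k c1
      have k1 : ∀ᶠ y in cf (n.sep Cw) hu, p g' y → p x y := by
        by_contra k1
        exact c3 g' g1 ⟨hu.1.mem_trans g1 c1, k1⟩
      have k2 : ∀ᶠ y in cf (n.sep Cw) hu, p c y → p g' y := (ev_iff hu).2 (g2.mono fun y hy _ =>
        mem_sep.2 ⟨(mem_sep.1 hy).1, Classical.not_imp.1 (mem_sep.1 hy).2⟩)
      exact c2 (by filter_upwards [k1, k2] with y a b c using a (b c))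
  refine ⟨x, x1, ?_⟩
  filter_upwards [h, ev_cl (S := n.sep Cw) hu (p := fun z L => p z L → p x L) fun g hg => by
    filter_upwards [h1 g hg] with y a z hz b using
      a (mono z g y ((hu.1.mem hg).subset_of_mem hz) b)] with y a b
  obtain ⟨g, g1, g2⟩ := a
  exact b g g1 g2

theorem ket (hu : Unc n) (hr : Regular {x | HOD Set.univ x} n) (htn : t ⊆ n) (hs : Few' t n)
    (C : ZFSet.{u} → ZFSet.{u}) [c0 : Tm Set.univ On (fun v => C (v 0))]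
    (c1 : ∀ x ∈ n, Cw x → C x ⊆ x ∧ ∀ b, b ∈ x → ∃ z, z ∈ C x ∧ b ∈ z) :
    ∀ b ∈ n, ∃ g ∈ n, b ∈ g ∧ ∀ᶠ y in cf (n.sep Cw) hu, g ∈ lim y (C y) := by
  have := Tm.one (C := Set.univ) (A := On) C
  have h1 : ∀ b ∈ n, ∃ g, g ∈ n ∧ b ∈ g ∧
      ∀ᶠ y in cf (n.sep Cw) hu, ∃ z, z ∈ C y ∧ b ∈ z ∧ z ⊆ g := fun b hb => by
    have : Tm Set.univ On (fun _ => b) := Tm.ofOrd (hu.1.mem hb)
    obtain ⟨g, g1, g2⟩ := wn hu hr htn hs (fun g y => ∃ z, z ∈ C y ∧ b ∈ z ∧ z ⊆ g)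
      (fun g g' y h ⟨z, z1, z2, z3⟩ => ⟨z, z1, z2, fun w hw => h (z3 hw)⟩) (by
        filter_upwards [ev_mem hu, ev_above hu hb] with y a a'
        obtain ⟨z, z1, z2⟩ := (c1 y a.2 (mem_sep.1 a.1).2).2 b a'
        exact ⟨z, (c1 y a.2 (mem_sep.1 a.1).2).1 z1, z, z1, z2, subset_rfl⟩)
    obtain ⟨c, e1, e2, e3⟩ := exists_bound2 hu.1 g1 (hu.succ_mem hb)
    exact ⟨c, e1, e3 (mem_insert _ _), g2.mono fun y ⟨z, z1, z2, z3⟩ =>
      ⟨z, z1, z2, fun w hw => e2 (z3 hw)⟩⟩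
  choose! N n1 n2 n3 using h1
  intro b hb
  have h2 : ∀ k : ℕ, N^[k] b ∈ n := fun k => by
    induction k with
    | zero => exact hb
    | succ k ih => rw [iterate_succ_apply']; exact n1 _ ih
  let Z : ZFSet.{u} := range fun k : ULift.{u} ℕ => N^[k.down] b
  have hZ : card Z ≤ card om := by
    rw [card_om]
    simpa using lift_card_range_le (f := fun k : ULift.{u} ℕ => N^[k.down] b)
  have hZb : ∀ x ∈ Z, x ∈ n := fun x hx => by
    obtain ⟨k, rfl⟩ := mem_range.1 hx; exact h2 _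
  obtain ⟨e, he, h3⟩ := hu.2 Z hZb hZ
  have ho : (⋃₀ Z : ZFSet.{u}).IsOrdinal := isOrdinal_sUnion fun y hy => hu.1.mem (hZb y hy)
  have h4 : ∀ k : ℕ, N^[k] b ∈ (⋃₀ Z : ZFSet.{u}) := fun k =>
    mem_sUnion.2 ⟨_, mem_range.2 ⟨⟨k + 1⟩, rfl⟩, by
      rw [iterate_succ_apply']; exact n2 _ (h2 k)⟩
  have h6 : (⋃₀ Z : ZFSet.{u}) ∈ n := ho.mem_of_subset_of_mem hu.1 (fun z hz => by
    obtain ⟨y, hy, hz⟩ := mem_sUnion.1 hz
    exact (hu.1.mem he).mem_trans hz (h3 y hy)) he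
  refine ⟨_, h6, h4 0, ?_⟩
  have h7 : H57F.Bd (Order.succ (card om.{u})) n := fun y y1 y2 =>
    hu.2 y y1 (Order.lt_succ_iff.1 y2)
  filter_upwards [H57F.ev_small (S := n.sep Cw) hu h7 (Order.lt_succ_iff.2 hZ)
    (p := fun w y => ∃ z, z ∈ C y ∧ w ∈ z ∧ z ⊆ N w) fun w hw => n3 w (hZb w hw),
    ev_above hu h6, ev_mem hu] with y a1 a2 a3
  refine mem_sep.2 ⟨a2, ⟨b, h4 0⟩, fun w hw => ?_⟩
  obtain ⟨s, s1, s2⟩ := mem_sUnion.1 hw
  obtain ⟨z, z1, z2, z3⟩ := a1 s s1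
  have zo := (hu.1.mem a3.2).mem ((c1 y a3.2 (mem_sep.1 a3.1).2).1 z1)
  refine ⟨z, z1, zo.mem_trans s2 z2, zo.mem_of_subset_of_mem ho z3 ?_⟩
  obtain ⟨k, rfl⟩ := mem_range.1 s1
  have := h4 (k.down + 1)
  rwa [iterate_succ_apply'] at this

end Pool.Agent.MP_ecfd11_lc.H46S
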