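import Pool.Agent.MP_ecfd11_lc.H46S.Defs
import Pool.Agent.MP_ecfd11_lc.H65D.Sup

/-!
Cardinals that are regular in HOD; small definable cofinal sets.
-/

set_option synthInstance.maxSize 4000

namespace Pool.Agent.MP_ecfd11_lc.H46S

open Pool.Agent.MP_ecfd11_lc.H20 Pool.Agent.MP_ecfd11_lc.H13X Pool.Agent.MP_ecfd11_lc.H3U
  Pool.Agent.MP_ecfd11_lc.H3E Pool.Agent.MP_ecfd11_lc.H65S Pool.Agent.MP_ecfd11_lc.H65D

universe u

open ZFSet Cardinal Function Filter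

variable {d m t n r P x : ZFSet.{u}}

theorem reg_sub (hr : Regular {x | HOD Set.univ x} r) (p0 : OD Set.univ P) (p1 : P ⊆ r)
    (p2 : ∀ x ∈ r, ∃ z ∈ P, x ∈ z) : r ⊆ img (colIn P) P := by
  have po : ∀ z ∈ P, z.IsOrdinal := fun z hz => hr.1.mem (p1 hz)
  have ho := img_colIn_ord po
  refine (ho.mem_or_subset hr.1).resolve_left fun h => ?_
  have : Tm Set.univ On (fun _ => P) := od_iff.1 p0
  let F : ZFSet.{u} → ZFSet.{u} := fun i => ⋃₀ (P.sep fun y => colIn P y = i)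
  have f0 : Tm Set.univ On (fun v => F (v 0)) := by
    simp only [F]; infer_instance
  have f1 : ∀ z ∈ P, F (colIn P z) = z := fun z hz => by
    refine ZFSet.ext fun w => ⟨fun hw => ?_, fun hw => mem_sUnion.2 ⟨z, mem_sep.2 ⟨hz, rfl⟩, hw⟩⟩
    obtain ⟨y, y1, y2⟩ := mem_sUnion.1 hw
    exact colIn_inj po (mem_sep.1 y1).1 hz (mem_sep.1 y1).2 ▸ y2
  have f2 : ∀ i ∈ img (colIn P) P, F i ∈ r := fun i hi => by
    obtain ⟨z, hz, rfl⟩ := mem_img.1 hi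
    rw [f1 z hz]; exact p1 hz
  obtain ⟨b, b1, b2⟩ := hr.2.2 _ h (gr F _)
    (hod_gr ho F fun i hi y hy => (hr.1.mem (f2 i hi)).mem hy) (isFunc_gr f2)
  obtain ⟨z, z1, z2⟩ := p2 b b1
  exact mem_asymm z2 (b2 (colIn P z) z (pair_mem_gr.2 ⟨mem_img.2 ⟨z, z1, rfl⟩, f1 z z1⟩))

theorem reg_small (hr : Regular {x | HOD Set.univ x} r) (htr : t ⊆ r) (p0 : OD Set.univ P)
    (p1 : P ⊆ r) (p2 : ∀ x ∈ r, ∃ z ∈ P, x ∈ z) : card t ≤ card P :=
  (card_mono htr).trans ((card_mono (reg_sub hr p0 p1 p2)).trans (card_img_le _ _))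

theorem reg_lim (hr : Regular {x | HOD Set.univ x} r) : ∀ b ∈ r, ∃ c ∈ r, b ∈ c := fun b hb => by
  have : Tm Set.univ On (fun _ => b) := Tm.ofOrd (hr.1.mem hb)
  obtain ⟨c, c1, c2⟩ := hr.2.2 _ hr.2.1 (gr (fun _ => b) _)
    (hod_gr (isOrdinal_toZFSet _) (fun _ => b) fun _ _ y hy => (hr.1.mem hb).mem hy)
    (isFunc_gr fun _ _ => hb)
  exact ⟨c, c1, c2 ∅ b (pair_mem_gr.2 ⟨empty_mem_om, rfl⟩)⟩

theorem unc_of (ht : Regular Set.univ t)
    (hc : ∀ r, t ∈ r → r ⊆ n → Regular {x | HOD Set.univ x} r → ¬ CofOmega Set.univ r)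
    (hr : Regular {x | HOD Set.univ x} r) (h1 : t ⊆ r) (h2 : r ⊆ n) : Unc r := by
  rcases (ht.1.subset_iff_eq_or_mem hr.1).1 h1 with rfl | h
  · exact unc_of_regular ht
  · exact unc_of_not_cof hr.1 (reg_lim hr) h (hc r h h2 hr)

theorem small_cof (ht : Regular Set.univ t)
    (hc : ∀ r, t ∈ r → r ⊆ n → Regular {x | HOD Set.univ x} r → ¬ CofOmega Set.univ r)
    (ho : x.IsOrdinal) (hx : x ⊆ n) (hw : Cw x) :
    ∃ y, OD Set.univ y ∧ y ⊆ x ∧ ¬ card t ≤ card y ∧ ∀ b, b ∈ x → ∃ z, z ∈ y ∧ b ∈ z := by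
  obtain ⟨Y, y1, y2, y3⟩ := hw
  have hl : ∀ b ∈ x, ∃ z ∈ x, b ∈ z := fun b hb => by
    obtain ⟨z, z1, z2⟩ := y3 b hb
    exact ⟨z, y1 z1, z2⟩
  obtain ⟨r, ⟨r0, F, f0, f1, f2⟩, hmin⟩ := exists_min_mem (p := fun r : ZFSet.{u} => r.IsOrdinal ∧
    ∃ F : ZFSet.{u} → ZFSet.{u}, Tm Set.univ On (fun v => F (v 0)) ∧ (∀ i ∈ r, F i ∈ x) ∧
      ∀ b ∈ x, ∃ i ∈ r, b ∈ F i) (x := x) ⟨ho, fun i => i, inferInstance, fun _ h => h, hl⟩
  have := Tm.one (C := Set.univ) (A := On) F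
  have : Tm Set.univ On (fun _ => r) := Tm.ofOrd r0
  have : Tm Set.univ On (fun _ => x) := Tm.ofOrd ho
  rcases r0.mem_or_subset ht.1 with h | h
  · refine ⟨img F r, od_iff.2 inferInstance, fun z hz => ?_,
      not_le.2 ((card_img_le _ _).trans_lt (ht.card_lt h)), fun b hb => ?_⟩
    · obtain ⟨i, hi, rfl⟩ := mem_img.1 hz
      exact f1 i hi
    · obtain ⟨i, hi, h1⟩ := f2 b hb
      exact ⟨_, mem_img.2 ⟨i, hi, rfl⟩, h1⟩
  exfalso
  have rx : r ⊆ x := (ho.mem_or_subset r0).resolve_left fun h1 =>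
    hmin x h1 ⟨ho, fun i => i, inferInstance, fun _ h => h, hl⟩
  have hb : ∀ s ∈ r, ∃ c ∈ x, ∀ j ∈ insert s s, F j ∈ c := fun s hs => by
    have so := r0.mem hs
    obtain ⟨b, b1, b2⟩ : ∃ b ∈ x, ∀ i ∈ s, b ∉ F i := by
      by_contra h1
      push Not at h1
      exact hmin s hs ⟨so, F, f0, fun i hi => f1 i (r0.mem_trans hi hs), h1⟩
    obtain ⟨c, c1, c2⟩ := hl _ (union_mem ho b1 (f1 s hs))
    refine ⟨c, c1, fun j hj => ?_⟩
    rcases mem_insert_iff.1 hj with rfl | hj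
    · exact (ho.mem (f1 j hs)).mem_of_subset_of_mem (ho.mem c1)
        (fun z hz => mem_union.2 (Or.inr hz)) c2
    · have j1 := ho.mem (f1 j (r0.mem_trans hj hs))
      exact j1.mem_of_subset_of_mem (ho.mem c1) (fun z hz => mem_union.2 (Or.inl
        (((ho.mem b1).notMem_iff_subset j1).1 (b2 j hj) hz))) c2
  have hr : Regular {x | HOD Set.univ x} r := by
    refine ⟨r0, h ht.2.1, fun a ha f hf h1 => ?_⟩
    by_contra h2
    push Not at h2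
    have := hod_tm hf
    let G : ZFSet.{u} → ZFSet.{u} := fun i => leastBy x (fun c => c)
      fun c => ∀ j, j ∈ insert (app f i) (app f i) → F j ∈ c
    have g0 : Tm Set.univ On (fun v => G (v 0)) :=
      Tm.leastBy x (fun c => c) fun i c => ∀ j, j ∈ insert (app f i) (app f i) → F j ∈ c
    have g1 : ∀ i ∈ a, G i ∈ x ∧ ∀ j, j ∈ insert (app f i) (app f i) → F j ∈ G i :=
      fun i hi => leastBy_id ho (hb _ (h1.app_mem' hi))
    refine hmin a ha ⟨r0.mem ha, G, g0, fun i hi => (g1 i hi).1, fun b hb' => ?_⟩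
    obtain ⟨j, j1, j2⟩ := f2 b hb'
    obtain ⟨i, y, i1, i2⟩ := h2 j j1
    obtain ⟨ia, yr⟩ := pair_mem_prod.1 (h1.1 i1)
    have e : app f i = y := (h1.2 i ia).unique (h1.app_mem ia) i1
    refine ⟨i, ia, (ho.mem (g1 i ia).1).mem_trans j2 ((g1 i ia).2 j ?_)⟩
    rw [e]
    rcases (r0.mem j1).mem_trichotomous (r0.mem yr) with k | k | k
    exacts [mem_insert_of_mem _ k, k ▸ mem_insert _ _, absurd k i2]
  have hu := unc_of ht hc hr h (fun z hz => hx (rx hz))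
  have hy : card Y ≤ card om.{u} := by
    rw [succCard, card_ord', not_le] at y2
    exact Order.lt_succ_iff.1 y2
  choose! I i1 i2 using f2
  obtain ⟨c, c1, c2⟩ := hu.2 (img I Y) (fun w hw => by
    obtain ⟨b, hb, rfl⟩ := mem_img.1 hw
    exact i1 b (y1 hb)) ((card_img_le _ _).trans hy)
  refine hmin c c1 ⟨r0.mem c1, F, f0, fun i hi => f1 i (r0.mem_trans hi c1), fun b hb' => ?_⟩
  obtain ⟨z, z1, z2⟩ := y3 b hb'
  exact ⟨I z, c2 _ (mem_img.2 ⟨z, z1, rfl⟩),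
    (ho.mem (f1 _ (i1 z (y1 z1)))).mem_trans z2 (i2 z (y1 z1))⟩

end Pool.Agent.MP_ecfd11_lc.H46S
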