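import Pool.Agent.MP_ecfd11_lc.H46S.Ket

/-!
The fine system of small sets, the cofinality and the size of `n`, and the decoding.
-/

set_option synthInstance.maxSize 4000

namespace Pool.Agent.MP_ecfd11_lc.H46S

open Pool.Agent.MP_ecfd11_lc.H20 Pool.Agent.MP_ecfd11_lc.H13X Pool.Agent.MP_ecfd11_lc.H3U
  Pool.Agent.MP_ecfd11_lc.H3E Pool.Agent.MP_ecfd11_lc.H65S Pool.Agent.MP_ecfd11_lc.H65D

universe u

open ZFSet Cardinal Function Filter

variable {d m t n r E x S : ZFSet.{u}} {D be : ZFSet.{u} → ZFSet.{u}}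

/-- A definable system of small sets that is fine on a club of points of countable cofinality. -/
structure Sys (t n : ZFSet.{u}) (hu : Unc n) (D : ZFSet.{u} → ZFSet.{u}) : Prop where
  tm : Tm Set.univ On (fun v => D (v 0))
  sub : ∀ x, D x ⊆ n
  sm : ∀ x ∈ n, Cw x → card (D x) < card t
  fine : ∀ z ∈ n, ∀ᶠ x in cf (n.sep Cw) hu, z ∈ D x

theorem nb_W (hu : Unc n) : (cf (n.sep Cw) hu).NeBot :=
  neBot hu (not_null_sm hu (regular_succCard card_om.ge) fun _ hg hs => mem_sep.2 ⟨hg, hs⟩)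

theorem sys (ht : Regular Set.univ t)
    (hc : ∀ r, t ∈ r → r ⊆ n → Regular {x | HOD Set.univ x} r → ¬ CofOmega Set.univ r)
    (hu : Unc n) (hr : Regular {x | HOD Set.univ x} n) (htn : t ⊆ n) (hs : Few' t n) :
    ∃ D, Sys t n hu D := by
  have : Tm Set.univ On (fun _ => n) := Tm.ofOrd hu.1
  have : Tm Set.univ On (fun _ => t) := Tm.ofOrd ht.1
  have : Tm Set.univ On (fun _ => succCard om.{u}) := Tm.ofOrd (succCard_ord _)
  have := tm_W hu.1
  obtain ⟨C, c0, c1⟩ := od_choice (C := Set.univ) n (fun x y => Sm (succCard om) x →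
      y ⊆ x ∧ ¬ card t ≤ card y ∧ ∀ b, b ∈ x → ∃ z, z ∈ y ∧ b ∈ z) fun x hx => by
    by_cases k : Cw x
    · obtain ⟨y, y0, y1⟩ := small_cof ht hc (hu.1.mem hx) (hu.1.subset_of_mem hx) k
      exact ⟨y, y0, fun _ => y1⟩
    · exact ⟨x, od_iff.2 (Tm.ofOrd (hu.1.mem hx)), fun k' => absurd k' k⟩
  replace c1 := fun x hx => c1 x hx trivial
  have := Tm.one (C := Set.univ) (A := On) C
  have h1 := ket hu hr htn hs C fun x hx hw => ⟨(c1 x hx hw).1, (c1 x hx hw).2.2⟩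
  have l0 : Tm Set.univ On (fun v => lim (v 0) (C (v 0))) := by
    unfold H20.lim; infer_instance
  have := Tm.one (C := Set.univ) (A := On) fun y => lim y (C y)
  obtain ⟨P, hP⟩ : ∃ P, P = n.sep fun g =>
      Null n ((n.sep Cw).sep fun y => ¬ g ∈ lim y (C y)) := ⟨_, rfl⟩
  have p0 : Tm Set.univ On (fun _ => P) := by
    rw [hP]; infer_instance
  have p1 : ∀ g, g ∈ P ↔ g ∈ n ∧ ∀ᶠ y in cf (n.sep Cw) hu, g ∈ lim y (C y) := fun g => by
    rw [hP, mem_sep]; exact Iff.rfl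
  have p2 : P ⊆ n := fun g hg => ((p1 g).1 hg).1
  have p3 := reg_sub hr (od_iff.2 p0) p2 fun b hb => by
    obtain ⟨g, g1, g2, g3⟩ := h1 b hb
    exact ⟨g, (p1 g).2 ⟨g1, g3⟩, g2⟩
  refine ⟨fun y => n.sep fun z => ∃ g, g ∈ lim y (C y) ∧ colIn P g = z, inferInstance,
    fun _ => sep_subset, fun x hx hw => ?_, fun z hz => ?_⟩
  · refine (card_le_of_surj (a := lim x (C x)) (colIn P) fun z hz => (mem_sep.1 hz).2).trans_lt
      (((c4_card (hu.1.mem hx) (c1 x hx hw).1).trans card_union_le).trans_lt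
        (add_lt_of_lt ht.aleph0_lt.le (not_le.1 (c1 x hx hw).2.1) ?_))
    rw [card_singleton]; exact one_lt_aleph0.trans ht.aleph0_lt
  · obtain ⟨g, g1, rfl⟩ := mem_img.1 (p3 hz)
    filter_upwards [((p1 g).1 g1).2] with y hy using mem_sep.2 ⟨hz, g, hy, rfl⟩

theorem Sys.cover {hu : Unc n} (h : Sys t n hu D) (e1 : Club n E) :
    n ⊆ ⋃₀ img D (E.sep Cw) := fun z hz => by
  have := nb_W hu
  obtain ⟨y, y1, y2, y3⟩ := ((h.fine z hz).and ((ev_club hu e1).and (ev_mem hu))).exists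
  exact mem_sUnion.2 ⟨_, mem_img.2 ⟨y, mem_sep.2 ⟨y2, (mem_sep.1 y3.1).2⟩, rfl⟩, y1⟩

theorem card_sUnion_img_lt (ht : Regular Set.univ t) (hx : card x < card t)
    (h : ∀ i ∈ x, card (D i) < card t) : card (⋃₀ img D x : ZFSet.{u}) < card t := by
  obtain ⟨b, b1, b2⟩ := ht.bddV hx (fun i => (card (D i)).ord.toZFSet) fun i hi =>
    ht.mem_of_card_lt (isOrdinal_toZFSet _) (by rw [card_ord']; exact h i hi)
  refine (card_sUnion_img_le (k := card b) fun i hi => ?_).trans_lt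
    (mul_lt_of_lt ht.aleph0_lt.le hx (ht.card_lt b1))
  rw [← card_ord' (card (D i))]
  exact card_mono ((ht.1.mem b1).subset_of_mem (b2 i hi))

theorem bd_of (ht : Regular Set.univ t)
    (hc : ∀ r, t ∈ r → r ⊆ n → Regular {x | HOD Set.univ x} r → ¬ CofOmega Set.univ r)
    (hu : Unc n) (hr : Regular {x | HOD Set.univ x} n) (htn : t ⊆ n) : H57F.Bd (card t) n := by
  by_contra hn
  obtain ⟨E, e1, e2⟩ := sup0_club ht hu hn
  obtain ⟨D, h⟩ := sys ht hc hu hr htn (sat_small e1 e2)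
  exact ((card_mono htn).trans (card_mono (h.cover e1))).not_gt (card_sUnion_img_lt ht
    ((card_mono sep_subset).trans_lt e2) fun i hi =>
      h.sm i (e1.1 (mem_sep.1 hi).1) (mem_sep.1 hi).2)

theorem Sys.card_le {hu : Unc n} (h : Sys t n hu D) (ht : Regular Set.univ t) (htn : t ⊆ n) :
    card n ≤ card t := by
  have := nb_W hu
  have hn : ¬ H57F.Bd (card (succCard t)) n := fun hk => by
    obtain ⟨y, y1, y2⟩ := ((H57F.ev_small (S := n.sep Cw) hu hk (x := t)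
      (by rw [card_succCard]; exact Order.lt_succ _) (p := fun z y => z ∈ D y)
      fun z hz => h.fine z (htn hz)).and (ev_mem hu)).exists
    exact (card_mono (show t ⊆ D y from fun z hz => y1 z hz)).not_gt
      (h.sm y y2.2 (mem_sep.1 y2.1).2)
  obtain ⟨E, e1, e2⟩ := sup0_club (regular_succCard ht.aleph0_lt.le) hu hn
  rw [card_succCard, Order.lt_succ_iff] at e2
  refine (card_mono (h.cover e1)).trans ((card_sUnion_img_le (k := card t) fun i hi =>
    (h.sm i (e1.1 (mem_sep.1 hi).1) (mem_sep.1 hi).2).le).trans ?_)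
  exact (mul_le_mul_left ((card_mono sep_subset).trans e2) _).trans
    (mul_eq_self ht.aleph0_lt.le).le

theorem decode (h : En t n be) (hD : Sys t n h.unc D) :
    ∃ Ps : ZFSet.{u} → ZFSet.{u}, Tm Set.univ On (fun v => Ps (v 0)) ∧
      ∀ᶠ L in cf S h.unc, Unc L → Ps L = XL t be L := by
  have := hD.tm
  have := Tm.one (C := Set.univ) (A := On) D
  have := tm_W h.unc.1
  refine ⟨fun L => L.sep fun z => Null L ((n.sep Cw).sep fun y => ¬ z ∈ D y), inferInstance, ?_⟩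
  have k1 : ∀ᶠ L in cf S h.unc, ∀ z ∈ XL t be L, Null L ((n.sep Cw).sep fun y => ¬ z ∈ D y) :=
    h.diagX fun z hz => ev_null h.unc (hD.fine z hz)
  have k2 : ∀ᶠ L in cf S h.unc, ∀ y ∈ XL t be L, Cw y → ∀ z ∈ D y, z ∈ XL t be L :=
    h.diagX fun y hy => by
      by_cases k : Cw y
      · exact (H57F.ev_small h.unc h.bd (hD.sm y hy k) (p := fun z L => z ∈ XL t be L)
          fun z hz => h.fineX (hD.sub y hz)).mono fun _ a _ => a
      · exact Eventually.of_forall fun _ a => absurd a k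
  filter_upwards [k1, k2, h.c4, ev_mem h.unc] with L l1 l2 l3 l4 hL
  refine ZFSet.ext fun z => ⟨fun hz => ?_, fun hz => mem_sep.2 ⟨h.XL_sub l4.2 hz, l1 z hz⟩⟩
  have := nb_W hL
  have a1 : ∀ᶠ y in cf (L.sep Cw) hL, z ∈ D y := (ev_iff hL).2 ((mem_sep.1 hz).2.mono
    fun y hy hy' => mem_sep.2 ⟨mem_sep.2 ⟨h.unc.1.mem_trans hy' l4.2,
      (mem_sep.1 (mem_sep.1 hy).1).2⟩, (mem_sep.1 hy).2⟩)
  have a2 : ∀ᶠ y in cf (L.sep Cw) hL, Cw y → y ∈ XL t be L := (ev_iff hL).2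
    (((ev_iff hL).1 (l3 hL)).mono fun y hy hy' => mem_sep.2 ⟨hy', (mem_sep.1 hy).2⟩)
  obtain ⟨y, y1, y2, y3⟩ := (a1.and (a2.and (ev_mem hL))).exists
  have y4 := (mem_sep.1 y3.1).2
  exact l2 y (y2 y4) y4 z y1

end Pool.Agent.MP_ecfd11_lc.H46S
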